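import Pool.Agent.Q291.HEA.Stm4
import Pool.Agent.Q261.HEA.GFL
import Pool.Agent.Q277.HEA.MIX

/-!
# Project HEA, job SEG (helper53)

If all Gibbs states agree on the events which are invariant under the global spin flip, then the
Gibbs states are the mixtures of one Gibbs state and its flip. Proof by the lattice property of the
invariant measures: the truncated difference of two finite measures invariant under the finite
volume kernels is again invariant.
-/

set_option autoImplicit false

namespace Pool.Agent.Q53.HEA.SEG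

open MeasureTheory Filter Topology Set Pool.Agent.Q291.HEA Pool.Agent.Q261.HEA

open scoped Classical

variable {V E : Type} {l r : E → V}

/-- measures invariant under all the finite volume kernels -/
def Inv (l r : E → V) (K : E → ℝ) (μ : Measure (V → Bool)) : Prop :=
  ∀ Λ : Finset V, mix l r K Λ μ = μ

section

variable [Countable V]

theorem mix_add (h : LF l r) (K : E → ℝ) (Λ : Finset V) (μ ν : Measure (V → Bool))
    [IsFiniteMeasure μ] [IsFiniteMeasure ν] :
    mix l r K Λ (μ + ν) = mix l r K Λ μ + mix l r K Λ ν := by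
  ext A hA
  rw [mix_apply h K Λ hA, Measure.add_apply, mix_apply h K Λ hA, mix_apply h K Λ hA,
    integral_add_measure (int_fv h K Λ hA μ) (int_fv h K Λ hA ν), ENNReal.ofReal_add
      (integral_nonneg fun σ => fv_nonneg K Λ σ A) (integral_nonneg fun σ => fv_nonneg K Λ σ A)]

theorem mix_mono (h : LF l r) (K : E → ℝ) (Λ : Finset V) (μ ν : Measure (V → Bool))
    [IsFiniteMeasure μ] [IsFiniteMeasure ν] (hμν : μ ≤ ν) :
    mix l r K Λ μ ≤ mix l r K Λ ν := by
  refine Measure.le_iff.2 fun A hA => ?_
  rw [mix_apply h K Λ hA, mix_apply h K Λ hA]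
  refine ENNReal.ofReal_le_ofReal ?_
  exact integral_mono_measure hμν (Filter.Eventually.of_forall fun σ => fv_nonneg K Λ σ A)
    (int_fv h K Λ hA ν)

theorem mix_univ (h : LF l r) (K : E → ℝ) (Λ : Finset V) (μ : Measure (V → Bool))
    [IsFiniteMeasure μ] : mix l r K Λ μ univ = μ univ := by
  rw [mix_apply h K Λ MeasurableSet.univ]
  have h1 : ∀ σ : V → Bool, finiteVolume l r K Λ σ univ = 1 := by
    intro σ
    rw [fv_eq]
    simp only [indicator_univ, mul_one]
    exact wf_sum K Λ σ
  simp only [h1]
  rw [integral_const, smul_eq_mul, mul_one]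
  exact ofReal_measureReal

theorem mix_smul (h : LF l r) (K : E → ℝ) (Λ : Finset V) (μ : Measure (V → Bool))
    [IsFiniteMeasure μ] (c : ENNReal) (hc : c ≠ ⊤) :
    mix l r K Λ (c • μ) = c • mix l r K Λ μ := by
  have f1 : IsFiniteMeasure (c • μ) := Measure.smul_finite μ hc
  ext A hA
  rw [mix_apply h K Λ hA, Measure.smul_apply, mix_apply h K Λ hA, integral_smul_measure,
    smul_eq_mul, smul_eq_mul, ENNReal.ofReal_mul ENNReal.toReal_nonneg, ENNReal.ofReal_toReal hc]

theorem inv_of_gibbs (h : LF l r) {K : E → ℝ} {π : Measure (V → Bool)} (hπ : IsGibbs l r K π) :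
    Inv l r K π := by
  have := hπ.1
  intro Λ
  ext A hA
  rw [mix_apply h K Λ hA, ← hπ.2 Λ A hA]
  exact ofReal_measureReal

theorem gibbs_of_inv (h : LF l r) {K : E → ℝ} {π : Measure (V → Bool)} (hp : IsProbabilityMeasure π)
    (hi : Inv l r K π) : IsGibbs l r K π := by
  refine ⟨hp, fun Λ A hA => ?_⟩
  rw [← mix_real h K Λ hA π, hi Λ]

/-- the truncated difference of invariant measures is invariant -/
theorem inv_sub (h : LF l r) (K : E → ℝ) (μ ν : Measure (V → Bool)) [IsFiniteMeasure μ]
    [IsFiniteMeasure ν] (hμ : Inv l r K μ) (hν : Inv l r K ν) : Inv l r K (μ - ν) := by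
  intro Λ
  have hf : IsFiniteMeasure (μ - ν) := isFiniteMeasure_of_le μ Measure.sub_le
  have hf2 := mix_fin h K Λ (μ - ν)
  have h1 : μ ≤ (μ - ν) + ν := Measure.sub_le_iff_le_add.1 le_rfl
  have h2 := mix_mono h K Λ μ ((μ - ν) + ν) h1
  rw [mix_add h K Λ, hμ Λ, hν Λ] at h2
  have h3 : μ - ν ≤ mix l r K Λ (μ - ν) := Measure.sub_le_of_le_add h2
  exact (Measure.eq_of_le_of_measure_univ_eq h3 (mix_univ h K Λ (μ - ν)).symm).symm

theorem norm_gibbs (h : LF l r) (K : E → ℝ) (μ : Measure (V → Bool)) [IsFiniteMeasure μ]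
    (hμ : Inv l r K μ) (h0 : μ univ ≠ 0) : IsGibbs l r K ((μ univ)⁻¹ • μ) := by
  refine gibbs_of_inv h ⟨?_⟩ fun Λ => ?_
  · rw [Measure.smul_apply, smul_eq_mul]
    exact ENNReal.inv_mul_cancel h0 (measure_ne_top μ _)
  · rw [mix_smul h K Λ μ _ (ENNReal.inv_ne_top.2 h0), hμ Λ]

end

theorem flp_flp (η : V → Bool) : flp (flp η) = η := by
  funext v
  simp [flp]

theorem pre_pre (B : Set (V → Bool)) : flp ⁻¹' (flp ⁻¹' B) = B := by
  ext η
  simp only [mem_preimage, flp_flp]

/-- all Gibbs states agree on the flip invariant events -/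
def EvenEq (l r : E → V) (K : E → ℝ) : Prop :=
  ∀ π π' : Measure (V → Bool), IsGibbs l r K π → IsGibbs l r K π' → ∀ A : Set (V → Bool),
    MeasurableSet A → flp ⁻¹' A = A → π A = π' A

section

variable [Countable V]

/-- an invariant measure concentrated on a set disjoint from its flip is determined by its mass -/
theorem conc (h : LF l r) (K : E → ℝ) (hE : EvenEq l r K) (ρ ν : Measure (V → Bool))
    [IsFiniteMeasure ρ] (hρ : Inv l r K ρ) (hν : IsGibbs l r K ν) (W : Set (V → Bool))
    (hW : MeasurableSet W) (hd : Disjoint W (flp ⁻¹' W)) (h1 : ρ Wᶜ = 0) (h2 : ν Wᶜ = 0) :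
    ρ = ρ univ • ν := by
  by_cases h0 : ρ univ = 0
  · rw [h0, zero_smul]
    exact Measure.measure_univ_eq_zero.1 h0
  have hg := norm_gibbs h K ρ hρ h0
  have key : (ρ univ)⁻¹ • ρ = ν := by
    have h1' : ((ρ univ)⁻¹ • ρ) Wᶜ = 0 := by
      rw [Measure.smul_apply, h1, smul_zero]
    have hB : ∀ (τ : Measure (V → Bool)), τ Wᶜ = 0 → ∀ B : Set (V → Bool),
        τ B = τ ((B ∩ W) ∪ flp ⁻¹' (B ∩ W)) := by
      intro τ hτ B
      refine measure_congr ?_
      have h3 : ∀ᵐ η ∂τ, η ∈ W := hτ
      filter_upwards [h3] with η hη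
      refine propext ⟨fun hb => Or.inl ⟨hb, hη⟩, fun hb => ?_⟩
      rcases hb with hb | hb
      · exact hb.1
      · exact (Set.disjoint_left.1 hd hη hb.2).elim
    ext B hBm
    rw [hB _ h1' B, hB _ h2 B]
    refine hE _ _ hg hν _ ?_ ?_
    · exact (hBm.inter hW).union (meas_flp (hBm.inter hW))
    · rw [preimage_union, pre_pre, union_comm]
  rw [← key, smul_smul, ENNReal.mul_inv_cancel h0 (measure_ne_top ρ _), one_smul]

/-- twice the symmetrisation is an even quantity -/
theorem sym_eq (K : E → ℝ) (hE : EvenEq l r K) (π π' : Measure (V → Bool))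
    (hπ : IsGibbs l r K π) (hπ' : IsGibbs l r K π') : π + π.map flp = π' + π'.map flp := by
  ext B hB
  have hB' : MeasurableSet (flp ⁻¹' B) := meas_flp hB
  rw [Measure.add_apply, Measure.add_apply, Measure.map_apply meas_flp hB,
    Measure.map_apply meas_flp hB, ← measure_union_add_inter B hB',
    ← measure_union_add_inter B hB']
  congr 1
  · refine hE _ _ hπ hπ' _ (hB.union hB') ?_
    rw [preimage_union, pre_pre, union_comm]
  · refine hE _ _ hπ hπ' _ (hB.inter hB') ?_
    rw [preimage_inter, pre_pre, inter_comm]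

theorem main (h : LF l r) (K : E → ℝ) (hex : ∃ π, IsGibbs l r K π) (hE : EvenEq l r K) :
    ∃ π : Measure (V → Bool), IsGibbs l r K π ∧ ∀ π', IsGibbs l r K π' → ∃ t : ℝ, 0 ≤ t ∧ t ≤ 1 ∧
      π' = ENNReal.ofReal t • π + ENNReal.ofReal (1 - t) • π.map flp := by
  by_cases hall : ∀ π, IsGibbs l r K π → π.map flp = π
  · obtain ⟨π₀, hπ₀⟩ := hex
    refine ⟨π₀, hπ₀, fun π' hπ' => ⟨1, zero_le_one, le_rfl, ?_⟩⟩
    have h1 := sym_eq K hE π' π₀ hπ' hπ₀
    rw [hall π' hπ', hall π₀ hπ₀] at h1
    have h2 : π' = π₀ := by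
      ext B hB
      have h3 := congrArg (fun τ : Measure (V → Bool) => τ B) h1
      simp only [Measure.add_apply] at h3
      rw [← two_mul, ← two_mul] at h3
      exact (ENNReal.mul_right_inj two_ne_zero ENNReal.ofNat_ne_top).1 h3
    rw [h2]
    simp
  · push Not at hall
    obtain ⟨π₁, hπ₁, hne⟩ := hall
    have hp₁ := hπ₁.1
    have hfl : IsGibbs l r K (π₁.map flp) := t_GFL l r h K π₁ hπ₁
    have hpf := hfl.1
    set μ := π₁ - π₁.map flp with hμ
    have hμf : IsFiniteMeasure μ := isFiniteMeasure_of_le π₁ Measure.sub_le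
    have hμi : Inv l r K μ :=
      inv_sub h K π₁ (π₁.map flp) (inv_of_gibbs h hπ₁) (inv_of_gibbs h hfl)
    have hμ0 : μ univ ≠ 0 := by
      intro h0
      rw [Measure.measure_univ_eq_zero] at h0
      have h1 : π₁ ≤ μ + π₁.map flp := Measure.sub_le_iff_le_add.1 le_rfl
      rw [h0, zero_add] at h1
      exact hne (Measure.eq_of_le_of_measure_univ_eq h1 (by rw [measure_univ, measure_univ])).symm
    set ν := (μ univ)⁻¹ • μ with hν
    have hνG : IsGibbs l r K ν := norm_gibbs h K μ hμi hμ0
    have hνp := hνG.1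
    -- the Hahn set
    obtain ⟨s, hs⟩ := exists_isHahnDecomposition (π₁.map flp) π₁
    have hsm := hs.measurableSet
    have a1 : μ sᶜ = 0 := Measure.sub_apply_eq_zero_of_isHahnDecomposition hs.compl
    have a2 : μ (flp ⁻¹' s) = 0 := by
      refine Measure.sub_apply_eq_zero_of_restrict_le_restrict ?_ (meas_flp hsm)
      refine Measure.le_iff.2 fun B hB => ?_
      rw [Measure.restrict_apply hB, Measure.restrict_apply hB,
        Measure.map_apply meas_flp (hB.inter (meas_flp hsm)), preimage_inter, pre_pre]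
      have h3 := hs.le_on (flp ⁻¹' B)
      rw [Measure.restrict_apply (meas_flp hB), Measure.restrict_apply (meas_flp hB),
        Measure.map_apply meas_flp ((meas_flp hB).inter hsm), preimage_inter, pre_pre] at h3
      exact h3
    set D := s \ flp ⁻¹' s with hD
    have hDm : MeasurableSet D := hsm.diff (meas_flp hsm)
    have hDf : flp ⁻¹' D = flp ⁻¹' s \ s := by
      rw [hD, preimage_diff, pre_pre]
    have hDm' : MeasurableSet (flp ⁻¹' D) := meas_flp hDm
    have hdisj : Disjoint D (flp ⁻¹' D) := by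
      rw [hDf, Set.disjoint_left]
      intro η h3 h4
      exact h4.2 h3.1
    have a3 : ν Dᶜ = 0 := by
      have h3 : μ Dᶜ = 0 := by
        refine measure_mono_null (t := sᶜ ∪ flp ⁻¹' s) ?_ ?_
        · intro η hη
          by_contra hc
          rw [mem_union, not_or] at hc
          exact hη ⟨not_notMem.1 hc.1, hc.2⟩
        · exact measure_union_null a1 a2
      rw [hν, Measure.smul_apply, h3, smul_zero]
    have hνfG : IsGibbs l r K (ν.map flp) := t_GFL l r h K ν hνG
    have hνfp := hνfG.1
    have a4 : (ν.map flp) (flp ⁻¹' D)ᶜ = 0 := by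
      rw [Measure.map_apply meas_flp hDm'.compl, ← preimage_compl, pre_pre]
      exact a3
    have a5 : ν (flp ⁻¹' D) = 0 := by
      refine measure_mono_null ?_ a3
      intro η hη hc
      exact Set.disjoint_left.1 hdisj hc hη
    refine ⟨ν, hνG, fun π' hπ' => ?_⟩
    have hp' := hπ'.1
    have hiπ := inv_of_gibbs h hπ'
    -- the union of `D` and its flip has full measure
    have b1 : π' (D ∪ flp ⁻¹' D)ᶜ = 0 := by
      have h3 : ν (D ∪ flp ⁻¹' D)ᶜ = 0 := by
        refine measure_mono_null ?_ a3
        exact compl_subset_compl.2 subset_union_left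
      rw [← h3]
      refine hE _ _ hπ' hνG _ (hDm.union hDm').compl ?_
      rw [preimage_compl, preimage_union, pre_pre, union_comm]
    -- on `D` the measure is at most `ν`
    have b2 : π'.restrict D ≤ ν.restrict D := by
      refine Measure.le_iff.2 fun B hB => ?_
      rw [Measure.restrict_apply hB, Measure.restrict_apply hB]
      have h3 := congrArg (fun τ : Measure (V → Bool) => τ (B ∩ D)) (sym_eq K hE π' ν hπ' hνG)
      simp only [Measure.add_apply] at h3
      have h4 : (ν.map flp) (B ∩ D) = 0 := by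
        rw [Measure.map_apply meas_flp (hB.inter hDm)]
        refine measure_mono_null ?_ a5
        intro η hη
        exact hη.2
      rw [h4, add_zero] at h3
      rw [← h3]
      exact le_self_add
    -- the restriction to the complement of `D` is the truncated difference
    have b3 : π' - ν = π'.restrict Dᶜ := by
      have h3 : (π' - ν).restrict D = 0 := by
        rw [Measure.restrict_eq_zero]
        exact Measure.sub_apply_eq_zero_of_restrict_le_restrict b2 hDm
      have h4 : (π' - ν).restrict Dᶜ = π'.restrict Dᶜ := by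
        rw [Measure.restrict_sub_eq_restrict_sub_restrict hDm.compl,
          Measure.restrict_eq_zero.2 a3, Measure.sub_zero]
      rw [← Measure.restrict_add_restrict_compl (μ := π' - ν) hDm, h3, h4, zero_add]
    have c1 : Inv l r K (π'.restrict Dᶜ) := by
      rw [← b3]
      exact inv_sub h K π' ν hiπ (inv_of_gibbs h hνG)
    have c2 : Inv l r K (π'.restrict D) := by
      intro Λ
      have h3 : π'.restrict D + π'.restrict Dᶜ = π' := Measure.restrict_add_restrict_compl hDm
      have h4 := hiπ Λ
      conv_lhs at h4 => rw [← h3]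
      rw [mix_add h K Λ, c1 Λ] at h4
      ext B hB
      have h5 := congrArg (fun τ : Measure (V → Bool) => τ B) (h4.trans h3.symm)
      simp only [Measure.add_apply] at h5
      exact (ENNReal.add_left_inj (measure_ne_top _ _)).1 h5
    have d1 := conc h K hE (π'.restrict D) ν c2 hνG D hDm hdisj (by
      rw [Measure.restrict_apply hDm.compl, compl_inter_self, measure_empty]) a3
    have d2 := conc h K hE (π'.restrict Dᶜ) (ν.map flp) c1 hνfG (flp ⁻¹' D) hDm'
      (by rw [pre_pre]; exact hdisj.symm) (by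
        rw [Measure.restrict_apply hDm'.compl]
        refine measure_mono_null ?_ b1
        intro η hη hc
        rcases hc with hc | hc
        · exact hη.2 hc
        · exact hη.1 hc) a4
    rw [Measure.restrict_apply_univ] at d1 d2
    refine ⟨π'.real D, measureReal_nonneg, measureReal_le_one, ?_⟩
    have e1 : ENNReal.ofReal (π'.real D) = π' D := ofReal_measureReal
    have e2 : ENNReal.ofReal (1 - π'.real D) = π' Dᶜ := by
      rw [← probReal_compl_eq_one_sub hDm]
      exact ofReal_measureReal
    rw [e1, e2, ← d1, ← d2]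
    exact (Measure.restrict_add_restrict_compl hDm).symm

end

end Pool.Agent.Q53.HEA.SEG

namespace Pool.Agent.Q291.HEA

open MeasureTheory in
theorem t_SEG : P_SEG := by
  intro V E _ l r h K hex hev
  refine Pool.Agent.Q53.HEA.SEG.main h K hex ?_
  intro π π' hπ hπ' A hA hAf
  have h1 := hπ.1
  have h2 := hπ'.1
  have h3 := hev π π' hπ hπ' A hA (fun η => by
    have : η ∈ Pool.Agent.Q261.HEA.flp ⁻¹' A ↔ η ∈ A := by rw [hAf]
    exact this.symm)
  exact (measureReal_eq_measureReal_iff).1 h3

end Pool.Agent.Q291.HEA
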